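import Pool.Agent.P.MP_8f87b2_lc.PL.Final

/-- Algebraic 3SUM: for every integer polynomial `F` in three variables and every `c`, a randomized
word-RAM program decides in time `O(n ^ (2 - 1 / 30000))` whether `F` vanishes at some point of the
product of three given lists of `n` integers in `[-n ^ c, n ^ c]`. -/
theorem Pool.Agent.Old.MP_8f87b2_lc.algebraicThreeSum
    (F : MvPolynomial (Fin 3) ℤ) (c : ℕ) :
    Pool.Agent.P.MP_8f87b2_lc.PL.DecidesP F c (2 - 1 / 30000) :=
  Pool.Agent.P.MP_8f87b2_lc.PL.decides F c
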